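import Mathlib
import Pool.Agent.Y671.GV.Gen

/-!
# Extension of κ-complete filters to filters that fail the Galvin property

Let `κ` be a regular cardinal and `G` a `κ`-complete filter over `κ` for which there are `κ` pairwise
disjoint positive sets (for instance the club filter, or its restriction to any set which contains
stationarily many points of cofinality `ω`). Then `G` extends to a proper `κ`-complete filter `F`
which contains, for `λ = κ⁺`, and for `λ = 2^κ` if `κ^{<κ} = κ`, and for every other number `λ` of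
functions `κ → κ` that are pairwise eventually different, a family of `λ` sets such that no `κ` of
them have their intersection in `F`: `Gal(F, κ, λ)` fails.
-/

set_option autoImplicit false

namespace Pool.Agent.Results.MP_52157e_lc.ExtendsEveryFilter

open Cardinal Set

universe u

/-- The filter `F` over the cardinal `κ` has the Galvin property: for every sequence of `κ⁺`
members of `F` there is a set of `κ` many indices with intersection in `F`. -/
def Galvin (κ : Cardinal.{u}) (F : Filter κ.ord.ToType) : Prop :=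
  ∀ A : (Order.succ κ).ord.ToType → Set κ.ord.ToType, (∀ i, A i ∈ F) →
    ∃ I : Set (Order.succ κ).ord.ToType, #I = κ ∧ ⋂ i ∈ I, A i ∈ F

/-- The filter `F` over the cardinal `κ` is `κ`-complete: the intersection of fewer than `κ`
members of `F` is a member of `F`. -/
def Complete (κ : Cardinal.{u}) (F : Filter κ.ord.ToType) : Prop :=
  ∀ S : Set (Set κ.ord.ToType), #S < κ → (∀ s ∈ S, s ∈ F) → ⋂₀ S ∈ F

/-- There are `κ` pairwise disjoint `G`-positive sets (sets whose complement is not in `G`). -/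
def ManyPositive (κ : Cardinal.{u}) (G : Filter κ.ord.ToType) : Prop :=
  ∃ P : κ.ord.ToType → Set κ.ord.ToType, (∀ a, (P a)ᶜ ∉ G) ∧
    ∀ a b, a ≠ b → Disjoint (P a) (P b)

/-- There are functions `h i : κ → κ`, `i ∈ Λ`, any two of which differ at all large arguments. -/
def EventuallyDifferent (κ : Cardinal.{u}) (Λ : Type u) : Prop :=
  ∃ h : Λ → κ.ord.ToType → κ.ord.ToType, ∀ i j, i ≠ j → ∃ b, ∀ a, b ≤ a → h i a ≠ h j a

/-- Strong failure of `Gal(F, κ, |Λ|)`: there are members `A i` of `F`, `i ∈ Λ`, such that no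
intersection of `κ` or more of them is a member of `F`. -/
def NonGal (κ : Cardinal.{u}) (F : Filter κ.ord.ToType) (Λ : Type u) : Prop :=
  ∃ A : Λ → Set κ.ord.ToType, (∀ i, A i ∈ F) ∧ ∀ I : Set Λ, κ ≤ #I → ⋂ i ∈ I, A i ∉ F

/-- The points of cofinality `ω`: limits of sequences of smaller points. -/
def cofOmega (κ : Cardinal.{u}) : Set κ.ord.ToType :=
  {α | ∃ a : ℕ → κ.ord.ToType, (∀ n, a n < α) ∧ ∀ b < α, ∃ n, b < a n}

theorem result (κ : Cardinal.{u}) (hκ : κ.IsRegular) :
    -- every `κ`-complete filter with `κ` disjoint positive sets extends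
    (∀ G : Filter κ.ord.ToType, Complete κ G → ManyPositive κ G →
      ∀ Λ : Type u, EventuallyDifferent κ Λ →
        ∃ F : Filter κ.ord.ToType, F ≤ G ∧ F.NeBot ∧ Complete κ F ∧ NonGal κ F Λ) ∧
    -- in ZFC this applies to `κ⁺`, and to `2^κ` if `κ^{<κ} = κ`
    EventuallyDifferent κ (Order.succ κ).ord.ToType ∧
    (κ ^< κ = κ → EventuallyDifferent κ (Set κ.ord.ToType)) ∧
    -- the club filter restricted to `S`
    (ℵ₀ < κ → ∀ S : Set κ.ord.ToType, IsStationary (S ∩ cofOmega κ) →
      ∀ Λ : Type u, EventuallyDifferent κ Λ →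
        ∃ F : Filter κ.ord.ToType, F.NeBot ∧ Complete κ F ∧ S ∈ F ∧ (∀ C, IsClub C → C ∈ F) ∧
          NonGal κ F Λ) ∧
    (ℵ₀ < κ → IsStationary (cofOmega κ)) ∧
    -- the answer to the question
    (ℵ₀ < κ → ∃ F : Filter κ.ord.ToType,
      F.NeBot ∧ Complete κ F ∧ (∀ C, IsClub C → C ∈ F) ∧ ¬ Galvin κ F) := by
  have gen : ∀ G : Filter κ.ord.ToType, Complete κ G → ManyPositive κ G →
      ∀ Λ : Type u, EventuallyDifferent κ Λ →
        ∃ F : Filter κ.ord.ToType, F ≤ G ∧ F.NeBot ∧ Complete κ F ∧ NonGal κ F Λ := by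
    rintro G hG ⟨P, hP, hPd⟩ Λ ⟨h, hh⟩
    exact Pool.Agent.Y671.GV.gmain hκ G hG P hP hPd h hh
  have hsucc : EventuallyDifferent κ (Order.succ κ).ord.ToType :=
    Pool.Agent.Y671.GV.evdiff_succ hκ
  have club : ℵ₀ < κ → ∀ S : Set κ.ord.ToType, IsStationary (S ∩ cofOmega κ) →
      ∀ Λ : Type u, EventuallyDifferent κ Λ →
        ∃ F : Filter κ.ord.ToType, F.NeBot ∧ Complete κ F ∧ S ∈ F ∧ (∀ C, IsClub C → C ∈ F) ∧
          NonGal κ F Λ := by
    intro hω S hS Λ hΛ
    obtain ⟨F, h1, h2, h3, h4⟩ := gen (Pool.Agent.Y671.GV.clubOn hκ hω S)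
      (Pool.Agent.Y671.GV.clubOn_complete hκ hω S)
      (Pool.Agent.Y671.GV.clubOn_positive hκ hω S hS) Λ hΛ
    exact ⟨F, h2, h3, h1 ⟨univ, IsClub.univ, inter_subset_right⟩,
      fun C hC => h1 ⟨C, hC, inter_subset_left⟩, h4⟩
  refine ⟨gen, hsucc, Pool.Agent.Y671.GV.evdiff_two hκ, club,
    Pool.Agent.Y671.GV.stationary_E hκ, fun hω => ?_⟩
  have hst : IsStationary (Set.univ ∩ cofOmega κ) := by
    rw [Set.univ_inter]
    exact Pool.Agent.Y671.GV.stationary_E hκ hω
  obtain ⟨F, h1, h2, -, h3, A, hA, hA2⟩ := club hω Set.univ hst _ hsucc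
  refine ⟨F, h1, h2, h3, fun hG => ?_⟩
  obtain ⟨I, hI, hI2⟩ := hG A hA
  exact hA2 I hI.ge hI2

end Pool.Agent.Results.MP_52157e_lc.ExtendsEveryFilter
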